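import Pool.Agent.Q9.DS.Fin

set_option autoImplicit false

/-!
# MP_5a4862_nt: zeros of the derivatives of xi shadow each other

The Riemann xi function is entire, and to the right of the line `Re s = 1/2` its zeros are those of zeta.
For any two orders `m`, `n` of differentiation (`m = 0` is xi itself) every high zero of the `m`-th derivative
off the critical line is accompanied, up to `ε` in the real part and `K log |Im s|` in the imaginary part, by a
zero of the `n`-th derivative. Hence the numbers of zeros in `Re s ≥ σ`, `0 < Im s ≤ T` satisfy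
`N_m(σ + ε, T) ≤ C (log T) ^ 2 (N_n(σ, 2 T) + 1)` for every two orders, so that all zero-density
estimates are the same for zeta and for each derivative, and zeta has a zero-free half-plane if
and only if some (or each) derivative of xi has only finitely many zeros in some half-plane `Re s > θ`,
`θ < 1`.
-/

namespace Pool.Agent.Results.MP_5a4862_nt.DerivativeShadowing

open Complex

/-- The Riemann xi function; `completedRiemannZeta₀ s = completedRiemannZeta s + 1 / s + 1 / (1 - s)`, so that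
this is `s (s - 1) / 2 * π ^ (-s / 2) Γ(s / 2) ζ(s)`. -/
noncomputable def xi (s : ℂ) : ℂ := s * (s - 1) / 2 * completedRiemannZeta₀ s + 1 / 2

/-- The zeros of the `n`-th derivative of xi with `Re s ≥ σ` and `0 < Im s ≤ T`. -/
def Zeros (n : ℕ) (σ T : ℝ) : Set ℂ := {s | iteratedDeriv n xi s = 0 ∧ σ ≤ s.re ∧ 0 < s.im ∧ s.im ≤ T}

/-- Their number, counted with multiplicity. -/
noncomputable def N (n : ℕ) (σ T : ℝ) : ℕ := ∑ᶠ s ∈ Zeros n σ T, analyticOrderNatAt (iteratedDeriv n xi) s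

theorem result :
    (∀ (n : ℕ) (σ T : ℝ), (Zeros n σ T).Finite) ∧
    (∀ (m n : ℕ) (ε : ℝ), 0 < ε → ∃ K T : ℝ, ∀ s : ℂ, iteratedDeriv m xi s = 0 → 1 / 2 + ε ≤ s.re →
      T ≤ |s.im| → ∃ s' : ℂ, iteratedDeriv n xi s' = 0 ∧ s.re - ε < s'.re ∧
        |s'.im - s.im| ≤ K * Real.log |s.im|) ∧
    (∀ (m n : ℕ) (σ ε : ℝ), 1 / 2 ≤ σ → 0 < ε → ∃ C : ℝ, 0 < C ∧ ∀ T : ℝ, 2 ≤ T →
      (N m (σ + ε) T : ℝ) ≤ C * Real.log T ^ 2 * (N n σ (2 * T) + 1)) ∧
    (∀ (n : ℕ) (θ : ℝ), 1 / 2 ≤ θ →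
      ((∀ ε : ℝ, 0 < ε → {s : ℂ | θ + ε < s.re ∧ riemannZeta s = 0}.Finite) ↔
        ∀ ε : ℝ, 0 < ε → {s : ℂ | θ + ε < s.re ∧ iteratedDeriv n xi s = 0}.Finite)) ∧
    ∀ n : ℕ, (∃ θ : ℝ, θ < 1 ∧ ∀ s : ℂ, θ < s.re → riemannZeta s ≠ 0) ↔
      ∃ θ : ℝ, θ < 1 ∧ {s : ℂ | θ < s.re ∧ iteratedDeriv n xi s = 0}.Finite :=
  Pool.Agent.Q9.DS.main

end Pool.Agent.Results.MP_5a4862_nt.DerivativeShadowing
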