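import Pool.Agent.Q9.ZF.Fin

set_option autoImplicit false

/-!
# MP_5a4862_nt: the strips which contain the zeros of the derivatives of the Riemann xi function

For a large number `n` all zeros of `ξ^(n)` up to height `exp (κ n)` lie in the strip
`|Re s - 1/2| ≤ 1/2 - 2/κ + ε` (on the critical line, if `κ < 4`).  For every `κ > 4` the width of
this strip can be improved if and only if zeta has a zero-free half-plane `Re s > θ`, `θ < 1`.
-/

namespace Pool.Agent.Results.MP_5a4862_nt.DerivativeStrips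

/-- The Riemann xi function `s (s - 1) π^(-s/2) Γ(s/2) ζ(s) / 2`, as an entire function. -/
noncomputable def xi (s : ℂ) : ℂ := s * (s - 1) / 2 * completedRiemannZeta₀ s + 1 / 2

/-- For all large `n`, every zero of the `n`-th derivative of xi up to height `exp (κ n)` is at
distance at most `a` from the critical line. -/
def InStrip (κ a : ℝ) : Prop := ∃ N : ℕ, ∀ n : ℕ, N ≤ n → ∀ s : ℂ, iteratedDeriv n xi s = 0 →
  |s.im| ≤ Real.exp (κ * n) → |s.re - 1 / 2| ≤ a

/-- The zeta function has no zeros with `Re s > θ`. -/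
def ZeroFree (θ : ℝ) : Prop := ∀ s : ℂ, θ < s.re → riemannZeta s ≠ 0

theorem result :
    (∀ κ a : ℝ, 0 < κ → 0 ≤ a → 1 / 2 - 2 / κ < a → InStrip κ a) ∧
    (∀ θ : ℝ, 1 / 2 ≤ θ → ZeroFree θ → ∀ κ a : ℝ, 0 < κ → 0 ≤ a → θ - 1 / 2 - 2 / κ < a →
      InStrip κ a) ∧
    (∀ κ : ℝ, 4 < κ → ((∃ a : ℝ, a < 1 / 2 - 2 / κ ∧ InStrip κ a) ↔
      ∃ θ : ℝ, θ < 1 ∧ ZeroFree θ)) :=
  Pool.Agent.Q9.ZF.final

end Pool.Agent.Results.MP_5a4862_nt.DerivativeStrips
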