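import Pool.Agent.Q9.ES.Fin

set_option autoImplicit false

/-!
# MP_5a4862_nt: strips for the zeros of the de Bruijn-Newman family and zero-free half-planes

`H t z` is the integral of `exp (t * u ^ 2) * Phi u * cos (z * u)` over `u > 0`; `H 0 z` is the Riemann
xi function at `1/2 + i z / 2` up to a constant, so that all zeros of `H 0`, hence of all `H t` with
`t ≥ 0`, lie in the strip `|Im z| ≤ 1`. `Strip κ a`: for small `t > 0` all zeros of `H t` beyond the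
height `exp (κ / t)` lie in the strip `|Im z| ≤ a`. We show unconditionally `Strip κ a` for
`κ > 2.7 (1 - a)` and, for `κ` small, already for `κ > (2 + ε) (1 - a)`; while `Strip κ a` for one pair
with `κ < 2 (1 - a)` is equivalent to the existence of a zero-free half-plane. For `0 < a < 1` the exact
range of `κ` for which the zeros are confined to the strip `|Im z| ≤ a` is determined in terms of zeta.
-/

namespace Pool.Agent.Results.MP_5a4862_nt.HeatFlowStrips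

open Complex

/-- The de Bruijn-Newman kernel. -/
noncomputable def Phi (u : ℝ) : ℝ := ∑' n : ℕ,
  (2 * Real.pi ^ 2 * ((n : ℝ) + 1) ^ 4 * Real.exp (9 * u) -
    3 * Real.pi * ((n : ℝ) + 1) ^ 2 * Real.exp (5 * u)) *
    Real.exp (-(Real.pi * ((n : ℝ) + 1) ^ 2 * Real.exp (4 * u)))

/-- The de Bruijn-Newman family: the integral of `exp (t u²) Φ(u) cos (z u)` over `u > 0`. -/
noncomputable def H (t : ℝ) (z : ℂ) : ℂ :=
  ∫ u in Set.Ioi (0 : ℝ), ((Real.exp (t * u ^ 2) * Phi u : ℝ) : ℂ) * Complex.cos (z * u)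

/-- For all sufficiently small `t > 0`, all zeros `z` of `H t` with `|Re z| ≥ exp (κ / t)` satisfy
`|Im z| ≤ a`. -/
def Strip (κ a : ℝ) : Prop := ∃ t0 : ℝ, 0 < t0 ∧ ∀ t : ℝ, 0 < t → t < t0 → ∀ z : ℂ, H t z = 0 →
  Real.exp (κ / t) ≤ |z.re| → |z.im| ≤ a

/-- For every `ε > 0` zeta has only finitely many zeros with real part greater than `θ + ε`. -/
def AlmostFree (θ : ℝ) : Prop := ∀ ε : ℝ, 0 < ε → {s : ℂ | θ + ε < s.re ∧ riemannZeta s = 0}.Finite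

/-- For every `ε > 0`: `|ζ(σ + i t)| ≤ C |t| ^ (μ + ε)` for all real `t` with `|t| ≥ 1`. -/
def Exponent (σ μ : ℝ) : Prop := ∀ ε : ℝ, 0 < ε → ∃ C : ℝ, ∀ t : ℝ, 1 ≤ |t| →
  ‖riemannZeta (σ + t * I)‖ ≤ C * |t| ^ (μ + ε)

/-- The Lindelof hypothesis. -/
def Lindelof : Prop := ∀ ε : ℝ, 0 < ε → ∃ C : ℝ, ∀ t : ℝ,
  ‖riemannZeta (1 / 2 + t * I)‖ ≤ C * (1 + |t|) ^ ε

theorem result :
    (∀ a : ℝ, 0 ≤ a → a < 1 → ∀ κ : ℝ, 27 / 10 * (1 - a) < κ → Strip κ a) ∧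
    (∀ c : ℝ, c < 1 / 2 → ∃ κ0 : ℝ, 0 < κ0 ∧ ∀ κ : ℝ, 0 < κ → κ < κ0 → Strip κ (1 - c * κ)) ∧
    (∀ κ a : ℝ, 0 < κ → 0 < a → a < 1 → ((∀ κ' : ℝ, κ < κ' → Strip κ' a) ↔
      AlmostFree (1 / 2 + (a / 2 + κ / 4)) ∧
      ∀ σ : ℝ, 1 / 2 + a / 2 ≤ σ → σ ≤ 1 →
        Exponent σ (max (a / 2 + κ / 4 - (σ - 1 / 2)) 0 ^ 2 / κ))) ∧
    (Lindelof → ∀ κ a : ℝ, 0 < κ → 0 < a → a < 1 →
      ((∀ κ' : ℝ, κ < κ' → Strip κ' a) ↔ AlmostFree (1 / 2 + (a / 2 + κ / 4)))) ∧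
    ((∃ θ : ℝ, θ < 1 ∧ ∀ s : ℂ, θ < s.re → riemannZeta s ≠ 0) ↔
      ∃ κ a : ℝ, 0 < κ ∧ 0 ≤ a ∧ a < 1 - κ / 2 ∧ Strip κ a) :=
  Pool.Agent.Q9.ES.main

end Pool.Agent.Results.MP_5a4862_nt.HeatFlowStrips
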