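import Pool.Agent.Q27.ZS2

/-!
# Zero-free half-planes of zeta and the zeros of `ξ(s + a) + w ξ(s - a)`

For `a > 0` and `|w| = 1` the zeros of `F_w(s) = ξ(s + a) + w ξ(s - a)` are symmetric about the critical
line; for `a ≥ 1/2` all of them lie on it (classical).  Let `0 < a < 1/2`, and let `w₁`, `w₂` be two different
numbers of modulus one, for instance `1` and `-1`.  We show that zeta has only finitely many zeros in
`Re s > 1/2 + a + δ` for every `δ > 0` if and only if `F_{w₁}` and `F_{w₂}` have only finitely many zeros in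
`Re s ≥ 1/2 + δ` (and `Re s ≤ X`) for every `δ > 0`; in this case the same holds for all `w`, uniformly.
Consequently zeta has a zero-free half-plane `Re s > θ`, `θ < 1`, if and only if for some `a < 1/2` both the
sum `ξ(s + a) + ξ(s - a)` and the difference `ξ(s + a) - ξ(s - a)` have this property.

Proof of the new direction: near the height `T` the two functions `F_{w₁}`, `F_{w₂}` have no zeros in a disc
which reaches from `Re s = 1/2 + δ/2` into the half-plane of absolute convergence, where they differ by the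
factor `1 + O(T^(-a))`.  The logarithm of their quotient is `O(log T)` by the inequality of Borel and
Caratheodory, hence small by the three circles theorem; but at a zero `ρ` of zeta with
`Re ρ ≥ 1/2 + a + δ` the quotient at `ρ - a` is `w₁ / w₂`.
-/

set_option autoImplicit false

namespace Pool.Agent.Results.MP_5a4862_nt.ShiftedSums

/-- The Riemann xi function `s (s - 1) π^(-s/2) Γ(s/2) ζ(s) / 2`, as an entire function. -/
noncomputable def xi (s : ℂ) : ℂ := s * (s - 1) / 2 * completedRiemannZeta₀ s + 1 / 2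

/-- The shifted sum `ξ(s + a) + w ξ(s - a)`. -/
noncomputable def shiftSum (a : ℝ) (w s : ℂ) : ℂ := xi (s + a) + w * xi (s - a)

/-- For all `δ > 0` and all `X` the shifted sum has only finitely many zeros with
`1/2 + δ ≤ Re s ≤ X`. -/
def NearLine (a : ℝ) (w : ℂ) : Prop := ∀ δ X : ℝ, 0 < δ →
  {s : ℂ | 1 / 2 + δ ≤ s.re ∧ s.re ≤ X ∧ shiftSum a w s = 0}.Finite

open Pool.Agent.H24R2.JP (XX)
open Pool.Agent.Q27.ZS

lemma xi_eq (s : ℂ) : xi s = XX (s - 1 / 2) / 8 := by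
  unfold xi XX
  have e : (1 : ℂ) / 2 + (s - 1 / 2) = s := by ring
  rw [e]
  ring

lemma shift_eq (a : ℝ) (w s : ℂ) : shiftSum a w s = sh a w (s - 1 / 2) / 8 := by
  unfold shiftSum sh
  rw [xi_eq, xi_eq]
  have e1 : s + (a : ℂ) - 1 / 2 = s - 1 / 2 + a := by ring
  have e2 : s - (a : ℂ) - 1 / 2 = s - 1 / 2 - a := by ring
  rw [e1, e2]
  ring

lemma shift_zero (a : ℝ) (w s : ℂ) : shiftSum a w s = 0 ↔ sh a w (s - 1 / 2) = 0 := by
  rw [shift_eq]
  simp

lemma re_half (s : ℂ) : (s - 1 / 2).re = s.re - 1 / 2 := by simp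

lemma im_half (s : ℂ) : (s - 1 / 2).im = s.im := by simp

lemma near_iff (a : ℝ) (w : ℂ) : NearLine a w ↔ FZ a w := by
  constructor
  · intro h δ X hδ
    refine ((h δ (X + 1 / 2) hδ).image fun s => s - 1 / 2).subset ?_
    rintro u ⟨h1, h2, h3⟩
    have e : u + 1 / 2 - 1 / 2 = u := by ring
    have e2 : (u + 1 / 2).re = u.re + 1 / 2 := by simp
    refine ⟨u + 1 / 2, ⟨by rw [e2]; linarith, by rw [e2]; linarith, ?_⟩, e⟩
    rw [shift_zero, e]
    exact h3
  · intro h δ X hδ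
    refine ((h δ (X - 1 / 2) hδ).image fun s => s + 1 / 2).subset ?_
    rintro s ⟨h1, h2, h3⟩
    refine ⟨s - 1 / 2, ⟨by rw [re_half]; linarith, by rw [re_half]; linarith, ?_⟩, by ring⟩
    rwa [← shift_zero]

/-- **Theorem.**  (1) Let `0 < a < 1/2`, and let `w₁ ≠ w₂` be of modulus one.  The following are equivalent:
(i) zeta has only finitely many zeros with `Re s > 1/2 + a + δ`, for every `δ > 0`; (ii) for all `δ > 0` and
`X` the zeros with `1/2 + δ ≤ Re s ≤ X` of all the functions `ξ(s + a) + w ξ(s - a)`, `|w| = 1`, together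
form a bounded set; (iii) `NearLine a w` for all `w` of modulus one; (iv) `NearLine a w₁` and
`NearLine a w₂`.

(2) Zeta has a zero-free half-plane `Re s > θ`, `θ < 1`, if and only if for some `0 < a < 1/2` the functions
`ξ(s + a) + ξ(s - a)` and `ξ(s + a) - ξ(s - a)` have, for all `δ > 0` and `X`, only finitely many zeros with
`1/2 + δ ≤ Re s ≤ X`. -/
theorem result :
    (∀ a : ℝ, 0 < a → a < 1 / 2 → ∀ w₁ w₂ : ℂ, ‖w₁‖ = 1 → ‖w₂‖ = 1 → w₁ ≠ w₂ →
      List.TFAE [∀ δ : ℝ, 0 < δ → {s : ℂ | 1 / 2 + a + δ < s.re ∧ riemannZeta s = 0}.Finite,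
        ∀ δ X : ℝ, 0 < δ → ∃ H : ℝ, ∀ s w : ℂ, 1 / 2 + δ ≤ s.re → s.re ≤ X → ‖w‖ = 1 →
          shiftSum a w s = 0 → |s.im| ≤ H,
        ∀ w : ℂ, ‖w‖ = 1 → NearLine a w,
        NearLine a w₁ ∧ NearLine a w₂]) ∧
    ((∃ θ : ℝ, θ < 1 ∧ ∀ s : ℂ, θ < s.re → riemannZeta s ≠ 0) ↔
      ∃ a : ℝ, 0 < a ∧ a < 1 / 2 ∧ NearLine a 1 ∧ NearLine a (-1)) := by
  have hmain : ∀ a : ℝ, 0 < a → a < 1 / 2 → ∀ w₁ w₂ : ℂ, ‖w₁‖ = 1 → ‖w₂‖ = 1 → w₁ ≠ w₂ →
      List.TFAE [∀ δ : ℝ, 0 < δ → {s : ℂ | 1 / 2 + a + δ < s.re ∧ riemannZeta s = 0}.Finite,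
        ∀ δ X : ℝ, 0 < δ → ∃ H : ℝ, ∀ s w : ℂ, 1 / 2 + δ ≤ s.re → s.re ≤ X → ‖w‖ = 1 →
          shiftSum a w s = 0 → |s.im| ≤ H,
        ∀ w : ℂ, ‖w‖ = 1 → NearLine a w,
        NearLine a w₁ ∧ NearLine a w₂] := by
    intro a ha ha1 w₁ w₂ hw₁ hw₂ hne
    have hm := main ha ha1 hw₁ hw₂ hne
    have e2 : (∀ δ X : ℝ, 0 < δ → ∃ H : ℝ, ∀ s w : ℂ, 1 / 2 + δ ≤ s.re → s.re ≤ X → ‖w‖ = 1 →
          shiftSum a w s = 0 → |s.im| ≤ H) ↔ BZ a := by
      constructor
      · intro h δ X hδ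
        obtain ⟨H, hH⟩ := h δ (X + 1 / 2) hδ
        refine ⟨H, fun u w h1 h2 hw h0 => ?_⟩
        have e : u + 1 / 2 - 1 / 2 = u := by ring
        have e2 : (u + 1 / 2).re = u.re + 1 / 2 := by simp
        have e3 : (u + 1 / 2).im = u.im := by simp
        have := hH (u + 1 / 2) w (by rw [e2]; linarith) (by rw [e2]; linarith) hw
          (by rw [shift_zero, e]; exact h0)
        rwa [e3] at this
      · intro h δ X hδ
        obtain ⟨H, hH⟩ := h δ (X - 1 / 2) hδ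
        refine ⟨H, fun s w h1 h2 hw h0 => ?_⟩
        have := hH (s - 1 / 2) w (by rw [re_half]; linarith) (by rw [re_half]; linarith) hw
          (by rw [← shift_zero]; exact h0)
        rwa [im_half] at this
    have e3 : (∀ w : ℂ, ‖w‖ = 1 → NearLine a w) ↔ ∀ w : ℂ, ‖w‖ = 1 → FZ a w :=
      forall_congr' fun w => by rw [near_iff]
    have e4 : (NearLine a w₁ ∧ NearLine a w₂) ↔ (FZ a w₁ ∧ FZ a w₂) := by rw [near_iff, near_iff]
    tfae_have 1 ↔ 2 := by rw [e2]; exact hm.out 0 1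
    tfae_have 1 ↔ 3 := by rw [e3]; exact hm.out 0 2
    tfae_have 1 ↔ 4 := by rw [e4]; exact hm.out 0 3
    tfae_finish
  have n1 : ‖(1 : ℂ)‖ = 1 := norm_one
  have n2 : ‖(-1 : ℂ)‖ = 1 := by rw [norm_neg, norm_one]
  have n3 : (1 : ℂ) ≠ -1 := by norm_num
  have h03 : ∀ a : ℝ, 0 < a → a < 1 / 2 →
      ((∀ δ : ℝ, 0 < δ → {s : ℂ | 1 / 2 + a + δ < s.re ∧ riemannZeta s = 0}.Finite) ↔
        (NearLine a 1 ∧ NearLine a (-1))) := fun a ha ha1 => (hmain a ha ha1 1 (-1) n1 n2 n3).out 0 3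
  refine ⟨hmain, ⟨?_, ?_⟩⟩
  · rintro ⟨θ, hθ, h⟩
    obtain ⟨a, had⟩ : ∃ a : ℝ, a = max (θ - 1 / 2) (1 / 4) := ⟨_, rfl⟩
    have ha : 0 < a := by rw [had]; exact lt_max_of_lt_right (by norm_num)
    have ha1 : a < 1 / 2 := by rw [had]; exact max_lt (by linarith) (by norm_num)
    have haθ : θ - 1 / 2 ≤ a := by rw [had]; exact le_max_left _ _
    have h4 := (h03 a ha ha1).1 (fun δ hδ => by
      convert Set.finite_empty (α := ℂ)
      rw [Set.eq_empty_iff_forall_notMem]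
      rintro s ⟨h1, h2⟩
      exact h s (by linarith) h2)
    exact ⟨a, ha, ha1, h4.1, h4.2⟩
  · rintro ⟨a, ha, ha1, h1, h2⟩
    have h3 := (h03 a ha ha1).2 ⟨h1, h2⟩
    obtain ⟨δ, hδd⟩ : ∃ δ : ℝ, δ = (1 / 2 - a) / 2 := ⟨_, rfl⟩
    have hδ : 0 < δ := by rw [hδd]; linarith
    have hfin := h3 δ hδ
    rcases Set.eq_empty_or_nonempty {s : ℂ | 1 / 2 + a + δ < s.re ∧ riemannZeta s = 0} with he | hne
    · refine ⟨1 / 2 + a + δ, by linarith, fun s hs h0 => ?_⟩
      have : s ∈ ({s : ℂ | 1 / 2 + a + δ < s.re ∧ riemannZeta s = 0} : Set ℂ) := ⟨hs, h0⟩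
      rw [he] at this
      exact this
    · obtain ⟨z, hz, hmax⟩ := Set.exists_max_image _ Complex.re hfin hne
      refine ⟨z.re, ?_, fun s hs h0 => ?_⟩
      · by_contra hcon
        push Not at hcon
        exact riemannZeta_ne_zero_of_one_le_re hcon hz.2
      · have := hmax s ⟨by linarith [hz.1], h0⟩
        linarith

end Pool.Agent.Results.MP_5a4862_nt.ShiftedSums
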